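import Pool.Agent.Work.MP_db4788_co.Lin.Gain

set_option autoImplicit false

namespace Pool.Agent.Results.MP_db4788_co.LinearGain

/-- There is a constant `C` such that every finite graph with no `K5` minor and no `K3,3` minor
(that is, every planar graph) is `(5 m - k, m)`-choosable whenever `k ≥ 1` and `m ≥ C k`. -/
theorem result : ∃ C : ℕ, ∀ k m : ℕ, 0 < k → C * k ≤ m →
    ∀ (V : Type) [Fintype V] (G : SimpleGraph V),
      (¬ ∃ f : Fin 5 → Set V,
          (∀ i j, i ≠ j → Disjoint (f i) (f j)) ∧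
          (∀ i, (G.induce (f i)).Connected) ∧
          (∀ i j, i ≠ j → ∃ u ∈ f i, ∃ v ∈ f j, G.Adj u v)) →
      (¬ ∃ f : Bool × Fin 3 → Set V,
          (∀ i j, i ≠ j → Disjoint (f i) (f j)) ∧
          (∀ i, (G.induce (f i)).Connected) ∧
          (∀ a b : Fin 3, ∃ u ∈ f (false, a), ∃ v ∈ f (true, b), G.Adj u v)) →
      ∀ L : V → Finset ℕ, (∀ v, (L v).card + k = 5 * m) →
        ∃ φ : V → Finset ℕ, (∀ v, φ v ⊆ L v ∧ (φ v).card = m) ∧
          ∀ u v, G.Adj u v → Disjoint (φ u) (φ v) := by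
  classical
  obtain ⟨C, h⟩ := Pool.Agent.PL5.mainK
  refine ⟨C, fun k m hk hm V _ G h5 h33 L hL => ?_⟩
  have hconn : ∀ S : Finset V, Pool.Agent.PL5.Conn G S → (G.induce (S : Set V)).Connected := by
    intro S hS
    obtain ⟨a, ha⟩ := hS.1
    have : Nonempty (S : Set V) := ⟨⟨a, ha⟩⟩
    refine SimpleGraph.Connected.mk (fun u v => ?_)
    have h1 := Pool.Agent.PL5.Reach.closed
      (fun x => ∀ hx : x ∈ (S : Set V), (G.induce (S : Set V)).Reachable u ⟨x, hx⟩)
      (fun x y hx _ hxy hh hy => (hh hx).trans (SimpleGraph.Adj.reachable hxy))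
      (hS.2 u.1 u.2 v.1 v.2) (fun _ => SimpleGraph.Reachable.refl u)
    exact h1 v.2
  have hG : Pool.Agent.PL5.MinorFree G :=
    { k5 := fun f hd hc ht => h5 ⟨fun i => (f i : Set V),
        fun i j hij => Finset.disjoint_coe.2 (hd i j hij), fun i => hconn _ (hc i),
        fun i j hij => ht i j hij⟩
      k33 := fun f hd hc ht => h33 ⟨fun i => (f i : Set V),
        fun i j hij => Finset.disjoint_coe.2 (hd i j hij), fun i => hconn _ (hc i),
        fun a b => ht a b⟩ }
  obtain ⟨φ, hφ, hc⟩ := (h k m hk hm V G hG Finset.univ L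
    (fun v => by have := hL v; omega)).exact
  exact ⟨φ, fun v => ⟨hφ.1 v (Finset.mem_univ v), hc v (Finset.mem_univ v)⟩,
    fun u v huv => hφ.2 u (Finset.mem_univ u) v (Finset.mem_univ v) huv⟩

end Pool.Agent.Results.MP_db4788_co.LinearGain
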